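import Mathlib
import Pool.Agent.Q172.Radial
import Pool.Agent.Q172.GraphVol
import Pool.Agent.Q172.GraphVolB

open MeasureTheory Set Metric
open scoped ENNReal
open Pool.Agent.Q172.GraphVol

namespace Pool.Agent.Results.MP_4af734_an.SlicesDoNotBound

/-- Here `n = 2`, `k = 1`, `X = ℙ²` with the Fubini-Study metric.  `D2 = Δ²`, `shell r = A²(r,1)`,
`vol4 F U` is the volume of the part over `U` of the graph of `[F] : Δ² → ℙ²` and `vol2 F z U` is the
area of the part over `U` of the graph of the restriction of `[F]` to `{z} × Δ`.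

For every `0 < r < 1` there are holomorphic maps `[F] : Δ² → ℙ²` with graph volume at most `4π²` over
the shell `A²(r,1)` and with graph area at most `2π` over every disc `{z} × Δ`, whose graph volume over
`Δ²` is arbitrarily large. -/
theorem result (r : ℝ) (hr0 : 0 < r) (hr1 : r < 1) (K : ℝ) :
    ∃ F : ℂ × ℂ → C3, Differentiable ℂ F ∧ (∀ p, F p ≠ 0) ∧
      vol4 F (D2 \ (closedBall 0 r ×ˢ closedBall 0 r)) ≤ ENNReal.ofReal (4 * Real.pi ^ 2) ∧
      (∀ z ∈ ball (0:ℂ) 1, vol2 F z (ball 0 1 \ closedBall 0 r) ≤ ENNReal.ofReal (2 * Real.pi)) ∧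
      (∀ z ∈ ball (0:ℂ) 1, vol2 F z (ball 0 1) ≤ ENNReal.ofReal (2 * Real.pi)) ∧
      ENNReal.ofReal K ≤ vol4 F D2 := by
  obtain ⟨M, hM2, hMK⟩ : ∃ M : ℕ, 2 ≤ M ∧ K ≤ Real.pi ^ 2 * M / 27 := by
    obtain ⟨m, hm⟩ := exists_nat_ge (27 * K / Real.pi ^ 2)
    refine ⟨max m 2, le_max_right _ _, ?_⟩
    have h1 : (m:ℝ) ≤ (max m 2 : ℕ) := by exact_mod_cast le_max_left m 2
    have hpi : 0 < Real.pi ^ 2 := by positivity
    have h2 : 27 * K / Real.pi ^ 2 ≤ (max m 2 : ℕ) := hm.trans h1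
    rw [div_le_iff₀ hpi] at h2
    linarith
  have hMp : (0:ℝ) < M := by exact_mod_cast (by omega : 0 < M)
  have hM1 : (1:ℝ) ≤ M := by exact_mod_cast (by omega : 1 ≤ M)
  set δ : ℝ := 1 / (M:ℝ) ^ 2 with hδdef
  have hδ : 0 < δ := by positivity
  have hδ1 : δ ≤ 1 := by
    rw [hδdef, div_le_one (by positivity)]
    nlinarith
  have hMd : (M:ℝ) ^ 2 * δ ≤ 1 := by
    rw [hδdef]
    field_simp
    exact le_rfl
  set ε : ℝ := δ ^ 2 * r ^ (3 * M) / M with hεdef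
  have hε : 0 < ε := by positivity
  have hεδ : ε ≤ δ := by
    rw [hεdef, div_le_iff₀ hMp]
    have h1 : r ^ (3 * M) ≤ 1 := pow_le_one₀ hr0.le hr1.le
    calc δ ^ 2 * r ^ (3 * M) ≤ δ ^ 2 * 1 := by gcongr
      _ = δ * δ := by ring
      _ ≤ δ * M := by gcongr; linarith
  refine ⟨Fe δ ε M, ?_, ?_, shell_bound δ ε r hδ hδ1 hr0 hr1 M hM2 hMd hεdef, ?_, ?_, ?_⟩
  · intro p
    have h1 : DifferentiableAt ℂ (fun p : ℂ × ℂ => ((δ:ℂ) * p.1 ^ M) • (!₂[(1:ℂ), 0, 0] : C3) +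
        p.2 • (!₂[(0:ℂ), 1, 0] : C3) + !₂[(0:ℂ), 0, (ε:ℂ)]) p := by fun_prop
    convert! h1 using 1
    funext q
    ext i
    fin_cases i <;> simp [Fe]
  · intro p h
    have h1 := SS_pos δ ε hε M p
    rw [← norm_Fe, h, norm_zero] at h1
    norm_num at h1
  · intro z _
    exact (lintegral_mono_set sdiff_subset).trans (slice_bound δ ε hε M z)
  · intro z _
    exact slice_bound δ ε hε M z
  · exact (ENNReal.ofReal_le_ofReal hMK).trans
      (total_bound δ ε hδ hε hεδ (hεδ.trans hδ1) M (by omega))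

end Pool.Agent.Results.MP_4af734_an.SlicesDoNotBound
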